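import Pool.Agent.Helper76.U.H1
import Pool.Agent.Helper76.U.H3

/-!
# MP_506470_co : module U-H4
-/

namespace SetHom
namespace Un

variable {V : Type} {G : SimpleGraph V}

theorem EmbW.map {r : ℕ} {α : Type} {H : SimpleGraph α} {U : Set α} {W : Finset V} {f : α → V}
    (h : EmbW G r H U W f) (φ : G ≃g G) {W' : Finset V} (hW' : φ '' (W : Set V) = W') :
    EmbW G r H U W' (fun x => φ (f x)) := by
  classical
  have hW : W' = W.map φ.toEquiv.toEmbedding := by
    ext w
    rw [← Finset.mem_coe, ← hW', Finset.mem_map]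
    rfl
  have hm : ∀ w ∈ W', ∃ v ∈ W, φ v = w := by
    intro w hw
    rw [← Finset.mem_coe, ← hW'] at hw
    exact hw
  refine ⟨?_, ?_, ?_, ?_, ?_⟩
  · intro x hx y hy hxy
    obtain ⟨x', hx', rfl⟩ := hm x hx
    obtain ⟨y', hy', rfl⟩ := hm y hy
    exact φ.map_adj_iff.2 (h.clq x' hx' y' hy' (fun e => hxy (by rw [e])))
  · rw [hW, Finset.card_map, h.card]
  · intro x hx w hw
    obtain ⟨w', hw', rfl⟩ := hm w hw
    exact φ.map_adj_iff.2 (h.full x hx w' hw')
  · intro x hx y hy e
    exact h.inj hx hy (φ.injective e)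
  · intro x hx y hy
    rw [φ.map_adj_iff, h.adj x hx y hy]

/-- `H` together with `M` private pins for every vertex and `M` null pins. -/
def hp {α : Type} (H : SimpleGraph α) (M : ℕ) : SimpleGraph (α ⊕ (Option α × Fin M)) :=
  AJ H (fun a p => p.1 = some a)

/-- `U`, the pins of `T` and the null pins. -/
def hpU {α : Type} (M : ℕ) (U T : Set α) : Set (α ⊕ (Option α × Fin M)) :=
  {y | (∀ x, y = Sum.inl x → x ∈ U) ∧ ∀ t i, y = Sum.inr (some t, i) → t ∈ T}

section hp
variable {α : Type} {H : SimpleGraph α} {M : ℕ} {U T : Set α}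

@[simp] theorem mem_hpU_inl {x : α} : (Sum.inl x : α ⊕ (Option α × Fin M)) ∈ hpU M U T ↔ x ∈ U := by
  simp [hpU]

@[simp] theorem mem_hpU_some {t : α} {i : Fin M} :
    (Sum.inr (some t, i) : α ⊕ (Option α × Fin M)) ∈ hpU M U T ↔ t ∈ T := by
  simp [hpU]

@[simp] theorem mem_hpU_none {i : Fin M} :
    (Sum.inr (none, i) : α ⊕ (Option α × Fin M)) ∈ hpU M U T := by
  simp [hpU]

/-- step (1) : one embedding with pins. -/
theorem hp_inW [Finite α] {S : Set ℕ} {r : ℕ} (hr : r ∈ S)
    (hJ : ∀ x ∈ U, x ∉ T → ∀ y ∈ U, y ∉ T → ¬ H.Adj x y) (hP : PS G S H T) :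
    InW G r (hp H M) (hpU M U T) := by
  classical
  have h0 := hP (α ⊕ (Option α × Fin M)) (fun a y => match y with
    | Sum.inl x => H.Adj a x
    | Sum.inr p => p.1 = some a) r hr
  refine h0.comap (fun y => match y with
    | Sum.inl x => if x ∈ T then Sum.inl x else Sum.inr (Sum.inl x)
    | Sum.inr p => Sum.inr (Sum.inr p)) ?_ ?_ ?_
  · rintro (x | p) hx
    · by_cases hxT : x ∈ T
      · simp [hxT]
      · simp [hxT]
    · simp
  · rintro (x | p) hx (y | q) hy e
    · by_cases hxT : x ∈ T <;> by_cases hyT : y ∈ T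
      · simpa [hxT, hyT] using e
      · simp [hxT, hyT] at e
      · simp [hxT, hyT] at e
      · simpa [hxT, hyT] using e
    · by_cases hxT : x ∈ T <;> simp [hxT] at e
    · by_cases hyT : y ∈ T <;> simp [hyT] at e
    · simpa using e
  · have key : ∀ x ∈ U, ∀ p : Option α × Fin M, (Sum.inr p : α ⊕ (Option α × Fin M)) ∈ hpU M U T →
        ((hp H M).Adj (Sum.inl x) (Sum.inr p) ↔
        (AJ H (fun a (y : α ⊕ (Option α × Fin M)) => match y with
          | Sum.inl x => H.Adj a x
          | Sum.inr p => p.1 = some a)).Adj (if x ∈ T then Sum.inl x else Sum.inr (Sum.inl x))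
          (Sum.inr (Sum.inr p))) := by
      intro x hx p hp'
      by_cases hxT : x ∈ T
      · rw [if_pos hxT]
        exact Iff.rfl
      · rw [if_neg hxT]
        refine iff_of_false ?_ (AJ_rr _ _)
        intro h
        change p.1 = some x at h
        obtain ⟨o, i⟩ := p
        simp only at h
        subst h
        rw [mem_hpU_some] at hp'
        exact hxT hp'
    rintro (x | p) hx (y | q) hy
    · rw [mem_hpU_inl] at hx hy
      show H.Adj x y ↔ _
      by_cases hxT : x ∈ T <;> by_cases hyT : y ∈ T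
      · simp [hxT, hyT]
      · simp [hxT, hyT]
      · simp [hxT, hyT, H.adj_comm]
      · simp only [hxT, hyT, if_false]
        exact iff_of_false (hJ x hx hxT y hy hyT) (AJ_rr _ _)
    · rw [mem_hpU_inl] at hx
      exact key x hx q hy
    · rw [mem_hpU_inl] at hy
      rw [SimpleGraph.adj_comm, key y hy p hx, SimpleGraph.adj_comm]
    · exact iff_of_false (fun h => h) (fun h => h)

/-- step (2) : every embedding can be extended to the pins. -/
theorem hp_ext [Finite α] (hB : UBase G) {r : ℕ} (hT : T ⊆ U)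
    (hnd : ∀ x ∈ U, ∃ y ∈ U, y ≠ x ∧ ¬ H.Adj x y) (ha : AutPres H U T)
    (h0 : InW G r (hp H M) (hpU M U T)) {W₁ : Finset V} {f₁ : α → V} (h₁ : EmbW G r H U W₁ f₁) :
    ∃ F : α ⊕ (Option α × Fin M) → V, EmbW G r (hp H M) (hpU M U T) W₁ F ∧
      ∀ x ∈ U, F (Sum.inl x) = f₁ x := by
  classical
  obtain ⟨W₀, F₀, h0⟩ := h0
  have h0U : EmbW G r H U W₀ (fun x => F₀ (Sum.inl x)) :=
    h0.comap Sum.inl (fun x hx => by simpa using hx) (fun x _ y _ e => Sum.inl_injective e)
      (fun x _ y _ => Iff.rfl)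
  let e₀ : Fin r ≃ W₀ := (Fin.castOrderIso h0.card.symm).toEquiv.trans W₀.equivFin.symm
  let e₁ : Fin r ≃ W₁ := (Fin.castOrderIso h₁.card.symm).toEquiv.trans W₁.equivFin.symm
  -- general facts about the join
  have hinj : ∀ (W : Finset V) (f : α → V) (e : Fin r ≃ W), EmbW G r H U W f →
      Function.Injective (Sum.elim (fun i => ((e i : W) : V)) (fun x : U => f x) : Fin r ⊕ U → V) := by
    intro W f e h
    rintro (i | x) (j | y) he
    · simp only [Sum.elim_inl] at he
      rw [e.injective (Subtype.ext he)]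
    · simp only [Sum.elim_inl, Sum.elim_inr] at he
      have := h.full y y.2 _ (e i).2
      rw [he] at this
      exact absurd this (G.irrefl)
    · simp only [Sum.elim_inl, Sum.elim_inr] at he
      have := h.full x x.2 _ (e j).2
      rw [he] at this
      exact absurd this (G.irrefl)
    · simp only [Sum.elim_inr] at he
      rw [Subtype.ext (h.inj x.2 y.2 he)]
  have hadj : ∀ (W : Finset V) (f : α → V) (e : Fin r ≃ W), EmbW G r H U W f →
      ∀ x y : Fin r ⊕ U, (G.Adj
        ((Sum.elim (fun i => ((e i : W) : V)) (fun x : U => f x) : Fin r ⊕ U → V) x)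
        ((Sum.elim (fun i => ((e i : W) : V)) (fun x : U => f x) : Fin r ⊕ U → V) y) ↔
        match x, y with
        | Sum.inl i, Sum.inl j => i ≠ j
        | Sum.inl _, Sum.inr _ => True
        | Sum.inr _, Sum.inl _ => True
        | Sum.inr x, Sum.inr y => H.Adj x y) := by
    intro W f e h
    rintro (i | x) (j | y)
    · simp only [Sum.elim_inl]
      constructor
      · rintro h1 rfl
        exact G.irrefl h1
      · intro h1
        exact h.clq _ (e i).2 _ (e j).2 (fun h2 => h1 (e.injective (Subtype.ext h2)))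
    · simp only [Sum.elim_inl, Sum.elim_inr, iff_true]
      exact (h.full y y.2 _ (e i).2).symm
    · simp only [Sum.elim_inl, Sum.elim_inr, iff_true]
      exact h.full x x.2 _ (e j).2
    · simp only [Sum.elim_inr]
      exact h.adj x x.2 y y.2
  obtain ⟨φ, σ, hφ, hσ⟩ := sh_emb hB.sh _ _ (hinj W₀ _ e₀ h0U) (hinj W₁ f₁ e₁ h₁)
    (fun x y => by rw [hadj W₀ _ e₀ h0U, hadj W₁ f₁ e₁ h₁])
  have hσ' : ∀ x y : Fin r ⊕ U, ((match σ x, σ y with
        | Sum.inl i, Sum.inl j => i ≠ j
        | Sum.inl _, Sum.inr _ => True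
        | Sum.inr _, Sum.inl _ => True
        | Sum.inr x, Sum.inr y => H.Adj x y : Prop) ↔ (match x, y with
        | Sum.inl i, Sum.inl j => i ≠ j
        | Sum.inl _, Sum.inr _ => True
        | Sum.inr _, Sum.inl _ => True
        | Sum.inr x, Sum.inr y => H.Adj x y : Prop)) := by
    intro x y
    have := hσ x y
    rw [hadj W₁ f₁ e₁ h₁, hadj W₁ f₁ e₁ h₁] at this
    exact this
  -- σ maps the clique to itself
  have hσl : ∀ i : Fin r, ∃ j, σ (Sum.inl i) = Sum.inl j := by
    intro i
    rcases hc : σ (Sum.inl i) with j | x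
    · exact ⟨j, rfl⟩
    · exfalso
      obtain ⟨y, hyU, hyx, hxy⟩ := hnd x x.2
      obtain ⟨z, hz⟩ := σ.surjective (Sum.inr ⟨y, hyU⟩)
      have h1 := hσ' (Sum.inl i) z
      rw [hc, hz] at h1
      simp only at h1
      rcases z with j | z
      · simp only at h1
        have h2 : i ≠ j := by
          rintro rfl
          rw [hc] at hz
          exact hyx (congrArg Subtype.val (Sum.inr_injective hz)).symm
        exact hxy (h1.2 h2)
      · simp only [iff_true] at h1
        exact hxy h1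
  have hσr : ∀ x : U, ∃ y, σ (Sum.inr x) = Sum.inr y := by
    intro x
    rcases hc : σ (Sum.inr x) with j | y
    · exfalso
      -- the restriction of σ to the clique is surjective
      choose g hg using hσl
      have hginj : Function.Injective g := by
        intro a b hab
        have := (hg a).trans (hab ▸ (hg b).symm)
        exact Sum.inl_injective (σ.injective this)
      obtain ⟨i, hi⟩ := (Finite.injective_iff_surjective.1 hginj) j
      rw [← hi, ← hg] at hc
      have := σ.injective hc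
      simp at this
    · exact ⟨y, rfl⟩
  choose τ hτ using hσr
  have hτinj : Function.Injective τ := by
    intro a b hab
    have := (hτ a).trans (hab ▸ (hτ b).symm)
    exact Sum.inr_injective (σ.injective this)
  have hτadj : ∀ x y : U, (H.Adj (τ x) (τ y) ↔ H.Adj x y) := by
    intro x y
    have := hσ' (Sum.inr x) (Sum.inr y)
    rw [hτ, hτ] at this
    exact this
  let τe : Equiv.Perm U := Equiv.ofBijective τ ⟨hτinj, Finite.injective_iff_surjective.1 hτinj⟩
  have hτe : ∀ x, τe x = τ x := fun x => rfl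
  let ρ : Equiv.Perm α := Equiv.Perm.ofSubtype τe
  have hρ : ∀ (x : α) (hx : x ∈ U), ρ x = τ ⟨x, hx⟩ := fun x hx =>
    Equiv.Perm.ofSubtype_apply_of_mem τe hx
  have hρU : ∀ x ∈ U, ρ x ∈ U := by
    intro x hx
    rw [hρ x hx]
    exact (τ ⟨x, hx⟩).2
  have hρbij : Set.BijOn ρ U U := by
    refine ⟨hρU, ρ.injective.injOn, ?_⟩
    intro y hy
    obtain ⟨x, hx⟩ := τe.surjective ⟨y, hy⟩
    refine ⟨x, x.2, ?_⟩
    rw [hρ x x.2]
    exact congrArg Subtype.val hx
  have hρadj : ∀ x ∈ U, ∀ y ∈ U, (H.Adj (ρ x) (ρ y) ↔ H.Adj x y) := by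
    intro x hx y hy
    rw [hρ x hx, hρ y hy]
    exact hτadj ⟨x, hx⟩ ⟨y, hy⟩
  have hρT := ha ρ hρbij hρadj
  have hρf : ∀ x ∈ U, φ (F₀ (Sum.inl x)) = f₁ (ρ x) := by
    intro x hx
    have := hφ (Sum.inr ⟨x, hx⟩)
    rw [hτ] at this
    rw [hρ x hx]
    exact this
  have hφW : φ '' (W₀ : Set V) = W₁ := by
    ext w
    constructor
    · rintro ⟨v, hv, rfl⟩
      obtain ⟨i, hi⟩ := e₀.surjective ⟨v, hv⟩
      have h1 := hφ (Sum.inl i)
      obtain ⟨j, hj⟩ := hσl i
      rw [hj] at h1
      simp only [Sum.elim_inl] at h1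
      rw [hi] at h1
      rw [h1]
      exact (e₁ j).2
    · intro hw
      obtain ⟨j, hj⟩ := e₁.surjective ⟨w, hw⟩
      choose g hg using hσl
      have hginj : Function.Injective g := by
        intro a b hab
        have := (hg a).trans (hab ▸ (hg b).symm)
        exact Sum.inl_injective (σ.injective this)
      obtain ⟨i, hi⟩ := (Finite.injective_iff_surjective.1 hginj) j
      refine ⟨e₀ i, (e₀ i).2, ?_⟩
      have h1 := hφ (Sum.inl i)
      rw [hg, hi] at h1
      simp only [Sum.elim_inl] at h1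
      rw [h1, hj]
  -- the inverse
  have hρsU : ∀ x ∈ U, ρ.symm x ∈ U := by
    intro x hx
    obtain ⟨y, hy, rfl⟩ := hρbij.surjOn hx
    rwa [Equiv.symm_apply_apply]
  have hρsT : ∀ x ∈ U, x ∈ T → ρ.symm x ∈ T := by
    intro x hx hxT
    rw [← hρT _ (hρsU x hx), Equiv.apply_symm_apply]
    exact hxT
  refine ⟨fun y => φ (F₀ (Sum.map ρ.symm (Prod.map (Option.map ρ.symm) id) y)), ?_, ?_⟩
  · refine (h0.map φ hφW).comap (Sum.map ρ.symm (Prod.map (Option.map ρ.symm) id)) ?_ ?_ ?_
    · rintro (x | ⟨o, i⟩) hx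
      · rw [mem_hpU_inl] at hx
        simpa using hρsU x hx
      · cases o with
        | none => simp
        | some t =>
          rw [mem_hpU_some] at hx
          simp only [Sum.map_inr, Prod.map_apply, Option.map_some, mem_hpU_some]
          exact hρsT t (hT hx) hx
    · have h2 : Function.Injective (Sum.map ρ.symm (Prod.map (Option.map ρ.symm) id) :
          α ⊕ (Option α × Fin M) → α ⊕ (Option α × Fin M)) :=
        Function.Injective.sumMap ρ.symm.injective
          (Function.Injective.prodMap (Option.map_injective ρ.symm.injective)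
            Function.injective_id)
      exact h2.injOn
    · rintro (x | ⟨o, i⟩) hx (y | ⟨o', j⟩) hy
      · rw [mem_hpU_inl] at hx hy
        show H.Adj x y ↔ H.Adj (ρ.symm x) (ρ.symm y)
        rw [← hρadj _ (hρsU x hx) _ (hρsU y hy), Equiv.apply_symm_apply, Equiv.apply_symm_apply]
      · show o' = some x ↔ Option.map ρ.symm o' = some (ρ.symm x)
        cases o' with
        | none => simp
        | some t => simp
      · show o = some y ↔ Option.map ρ.symm o = some (ρ.symm y)
        cases o with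
        | none => simp
        | some t => simp
      · exact iff_of_false (fun h => h) (fun h => h)
  · intro x hx
    show φ (F₀ (Sum.inl (ρ.symm x))) = f₁ x
    rw [hρf _ (hρsU x hx), Equiv.apply_symm_apply]

end hp

/-- module U-H4: WG. -/
theorem wg (hB : UBase G) {S : Set ℕ} {r : ℕ} (hr : r ∈ S) {α : Type} [Finite α]
    {H : SimpleGraph α} {U T : Set α} (hT : T ⊆ U)
    (hJ : ∀ x ∈ U, x ∉ T → ∀ y ∈ U, y ∉ T → ¬ H.Adj x y) (hP : PS G S H T)
    (hnd : ∀ x ∈ U, ∃ y ∈ U, y ≠ x ∧ ¬ H.Adj x y) (ha : AutPres H U T) : Uniq G r H U := by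
  classical
  obtain ⟨a, ⟨e⟩⟩ := Finite.exists_equiv_fin α
  have haα : Nat.card α = a := by rw [Nat.card_congr e, Nat.card_fin]
  -- number of pins
  let M : ℕ := r + 3 * a + 2
  have hMdef : M = r + 3 * a + 2 := rfl
  let D : α → Set α := fun t => {x | x ∈ U ∧ x ∉ T ∧ H.Adj t x}
  have hD : ∀ t, (D t).ncard ≤ a := fun t => by
    rw [← haα, ← Set.ncard_univ]
    exact Set.ncard_le_ncard (Set.subset_univ _) (Set.toFinite _)
  have hTa : Nat.card T ≤ a := by
    rw [← haα]
    exact Nat.card_le_card_of_injective _ Subtype.val_injective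
  let n : α → ℕ := fun t => (r + Nat.card T + 1 + a + e t) - (D t).ncard
  have hn : ∀ t, (D t).ncard + n t = r + Nat.card T + 1 + a + e t := fun t => by
    have := hD t
    show (D t).ncard + ((r + Nat.card T + 1 + a + e t) - (D t).ncard) = _
    omega
  have hnM : ∀ t, n t ≤ M := fun t => by
    have := hn t
    have := (e t).2
    omega
  intro W₁ f₁ W₂ f₂ h₁ h₂
  have h0 : InW G r (hp H M) (hpU M U T) := hp_inW hr hJ hP
  obtain ⟨F₁, hF₁, hf₁⟩ := hp_ext hB hT hnd ha h0 h₁
  obtain ⟨F₂, hF₂, hf₂⟩ := hp_ext hB hT hnd ha h0 h₂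
  -- the chosen pins
  let B : Set (α ⊕ (Option α × Fin M)) :=
    {y | (∀ x, y = Sum.inl x → x ∈ U ∧ x ∉ T) ∧
      ∀ t i, y = Sum.inr (some t, i) → t ∈ T ∧ (i : ℕ) < n t}
  have hBU : B ⊆ hpU M U T := fun y hy =>
    ⟨fun x e => (hy.1 x e).1, fun t i e => (hy.2 t i e).1⟩
  have hB1 : ∀ x, (Sum.inl x : α ⊕ (Option α × Fin M)) ∈ B ↔ x ∈ U ∧ x ∉ T := by
    intro x
    constructor
    · intro h
      exact h.1 x rfl
    · intro h
      refine ⟨fun x' e => ?_, fun t i e => ?_⟩
      · rw [← Sum.inl_injective e]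
        exact h
      · simp at e
  have hB2 : ∀ t i, (Sum.inr (some t, i) : α ⊕ (Option α × Fin M)) ∈ B ↔ t ∈ T ∧ (i : ℕ) < n t := by
    intro t i
    constructor
    · intro h
      exact h.2 t i rfl
    · intro h
      refine ⟨fun x' e => ?_, fun t' i' e => ?_⟩
      · simp at e
      · simp only [Sum.inr.injEq, Prod.mk.injEq, Option.some.injEq] at e
        rw [← e.1, ← e.2]
        exact h
  have hB3 : ∀ i, (Sum.inr (none, i) : α ⊕ (Option α × Fin M)) ∈ B := by
    intro i
    refine ⟨fun x' e => ?_, fun t' i' e => ?_⟩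
    · simp at e
    · simp at e
  let R : T → B → Prop := fun t y => (hp H M).Adj (Sum.inl t) y
  let A : SimpleGraph T := H.comap Subtype.val
  have hPA : PS G S A Set.univ := hP.comap Subtype.val (fun x _ => x.2)
    (fun x _ y _ e => Subtype.ext e) (fun x _ y _ => Iff.rfl)
  -- degrees
  have hdeg : ∀ t : T, {j : B | R t j}.ncard = r + Nat.card T + 1 + a + e t := by
    intro t
    rw [← hn]
    have h1 : (Subtype.val '' {j : B | R t j}) =
        (Sum.inl '' (D t)) ∪ ((fun i : Fin M => (Sum.inr (some (t : α), i) :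
          α ⊕ (Option α × Fin M))) '' {i : Fin M | (i : ℕ) < n t}) := by
      ext y
      constructor
      · rintro ⟨⟨y, hy⟩, hj, rfl⟩
        rcases y with x | ⟨o, i⟩
        · left
          exact ⟨x, ⟨((hB1 x).1 hy).1, ((hB1 x).1 hy).2, hj⟩, rfl⟩
        · right
          change o = some (t : α) at hj
          subst hj
          exact ⟨i, ((hB2 t i).1 hy).2, rfl⟩
      · rintro (⟨x, hx, rfl⟩ | ⟨i, hi, rfl⟩)
        · exact ⟨⟨Sum.inl x, (hB1 x).2 ⟨hx.1, hx.2.1⟩⟩, hx.2.2, rfl⟩
        · exact ⟨⟨Sum.inr (some (t : α), i), (hB2 t i).2 ⟨t.2, hi⟩⟩, rfl, rfl⟩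
    rw [← Set.ncard_image_of_injective _ Subtype.val_injective, h1, Set.ncard_union_eq,
      Set.ncard_image_of_injective _ Sum.inl_injective, Set.ncard_image_of_injective]
    · congr 1
      have h2 : {i : Fin M | (i : ℕ) < n t} = (fun i : Fin (n t) => Fin.castLE (hnM t) i) '' Set.univ := by
        ext i
        constructor
        · intro hi
          exact ⟨⟨i, hi⟩, trivial, Fin.ext rfl⟩
        · rintro ⟨j, -, rfl⟩
          exact j.2
      rw [h2, Set.ncard_image_of_injective _ (Fin.castLE_injective _), Set.ncard_univ, Nat.card_fin]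
    · intro i j h
      simpa using h
    · rw [Set.disjoint_left]
      rintro _ ⟨x, _, rfl⟩ ⟨i, _, h⟩
      simp at h
  have hβ : M ≤ Nat.card B := by
    have : Nat.card (Fin M) ≤ Nat.card B :=
      Nat.card_le_card_of_injective (fun i : Fin M => (⟨Sum.inr (none, i), hB3 i⟩ : B)) (by
        intro i j h
        simpa using h)
    rwa [Nat.card_fin] at this
  have hstd : Std r R := by
    refine ⟨?_, ?_, ?_, ?_⟩
    · omega
    · intro t
      rw [hdeg]
      omega
    · intro t
      rw [hdeg]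
      have := (e t).2
      omega
    · intro t t' h
      simp only [hdeg] at h
      have : (e t : ℕ) = e t' := by omega
      exact Subtype.ext (e.injective (Fin.ext this))
  have hu : Uniq G r (AJ A R) Set.univ := uniq_std hB hr hPA hstd
  let g : T ⊕ B → α ⊕ (Option α × Fin M) := Sum.elim (fun t => Sum.inl t) (fun y => y)
  have hg : ∀ x ∈ (Set.univ : Set (T ⊕ B)), g x ∈ hpU M U T := by
    rintro (t | y) -
    · show (Sum.inl (t : α) : α ⊕ (Option α × Fin M)) ∈ hpU M U T
      rw [mem_hpU_inl]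
      exact hT t.2
    · exact hBU y.2
  have hginj : Set.InjOn g Set.univ := by
    rintro (t | y) - (t' | y') - h
    · have : (t : α) = t' := Sum.inl_injective h
      rw [Subtype.ext this]
    · exfalso
      have h2 : (Sum.inl (t : α) : α ⊕ (Option α × Fin M)) ∈ B := by
        have h3 : (Sum.inl (t : α) : α ⊕ (Option α × Fin M)) = y' := h
        rw [h3]
        exact y'.2
      exact ((hB1 t).1 h2).2 t.2
    · exfalso
      have h2 : (Sum.inl (t' : α) : α ⊕ (Option α × Fin M)) ∈ B := by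
        have h3 : (y : α ⊕ (Option α × Fin M)) = Sum.inl (t' : α) := h
        rw [← h3]
        exact y.2
      exact ((hB1 t').1 h2).2 t'.2
    · have : (y : α ⊕ (Option α × Fin M)) = y' := h
      rw [Subtype.ext this]
  have hgadj : ∀ x ∈ (Set.univ : Set (T ⊕ B)), ∀ y ∈ (Set.univ : Set (T ⊕ B)),
      ((AJ A R).Adj x y ↔ (hp H M).Adj (g x) (g y)) := by
    rintro (t | y) - (t' | y') -
    · exact Iff.rfl
    · exact Iff.rfl
    · rw [SimpleGraph.adj_comm, (hp H M).adj_comm]
      exact Iff.rfl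
    · refine iff_of_false (AJ_rr _ _) ?_
      show ¬ (hp H M).Adj (y : α ⊕ (Option α × Fin M)) (y' : α ⊕ (Option α × Fin M))
      obtain ⟨y, hy⟩ := y
      obtain ⟨y', hy'⟩ := y'
      show ¬ (hp H M).Adj y y'
      rcases y with x | ⟨o, i⟩ <;> rcases y' with x' | ⟨o', i'⟩
      · exact hJ x ((hB1 x).1 hy).1 ((hB1 x).1 hy).2 x' ((hB1 x').1 hy').1 ((hB1 x').1 hy').2
      · intro h
        change o' = some x at h
        subst h
        exact ((hB1 x).1 hy).2 ((hB2 x i').1 hy').1
      · intro h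
        change o = some x' at h
        subst h
        exact ((hB1 x').1 hy').2 ((hB2 x' i).1 hy).1
      · exact fun h => h
  obtain ⟨φ, hφ, hφ2⟩ := hu W₁ _ W₂ _ (hF₁.comap g hg hginj hgadj) (hF₂.comap g hg hginj hgadj)
  refine ⟨φ, hφ, ?_⟩
  intro x hx
  rw [← hf₁ x hx, ← hf₂ x hx]
  by_cases hxT : x ∈ T
  · exact hφ2 (Sum.inl ⟨x, hxT⟩) trivial
  · exact hφ2 (Sum.inr ⟨Sum.inl x, (hB1 x).2 ⟨hx, hxT⟩⟩) trivial

end Un
end SetHom
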