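import Pool.Agent.Helper30.U.Defs2

/-!
# MP_506470_co : module U-P1 (one step for the path with three vertices)
-/

namespace SetHom
namespace Un

variable {V : Type} {G : SimpleGraph V}

section P1
variable {α : Type}

/-- cross relation -/
def p1C (H : SimpleGraph α) (x a b : α) (f : Prop → Prop → Prop → Prop) (z z' : α) : Prop :=
  z = x ∨ (z' = b ∧ f (H.Adj x z) (H.Adj a z) (H.Adj b z))

/-- pins: of kind 0 adjacent to `x` in the first copy, of kind 1 adjacent to this point and to `b`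
in the second copy -/
def p1E (x b : α) (u : α ⊕ α) (i : Fin 3 × Fin 3) : Prop :=
  (u = Sum.inl x ∧ (i.1 = 0 ∨ i.1 = 1)) ∨ (u = Sum.inr b ∧ i.1 = 1)

/-- module U-P1 (one step for P_3). -/
theorem p3_step (hW : WG G) (hC : CliqueIn G {0})
    (Sg Sg' : Prop → Prop → Prop → Prop) (f : Prop → Prop → Prop → Prop)
    (h1 : ∀ x y z, Sg x y z → Sg' x y (f x y z)) (h2 : ∀ x y z, Sg x y z → Sg' True y z)
    (h3 : Sg' True False False) (h4 : Sg' True False True) (h5 : Sg' False False False)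
    (h : P3C G 0 Sg') : P3C G 0 Sg := by
  classical
  intro α _ H U x a b ht hxa hxb hab
  obtain ⟨hx, ha, hb, xa, xb, ab, hind, hst⟩ := ht
  set X := gad H b a x a (p1C H x a b f) (p1E x b) with hX
  set Γ := gU (Fin 3 × Fin 3) U b a x a with hΓ
  -- points
  let c1 : (α ⊕ α) ⊕ (Fin 3 × Fin 3) := Sum.inl (Sum.inl x)
  let b2 : (α ⊕ α) ⊕ (Fin 3 × Fin 3) := Sum.inl (Sum.inr b)
  let x1 : (α ⊕ α) ⊕ (Fin 3 × Fin 3) := Sum.inl (Sum.inl b)
  let y1 : (α ⊕ α) ⊕ (Fin 3 × Fin 3) := Sum.inl (Sum.inl a)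
  have hc1Γ : c1 ∈ Γ := by
    show (Sum.inl (Sum.inl x) : (α ⊕ α) ⊕ (Fin 3 × Fin 3)) ∈ gU (Fin 3 × Fin 3) U b a x a
    rw [mem_gU_1]
    exact ⟨hx, xb, xa⟩
  have hb2Γ : b2 ∈ Γ := by
    show (Sum.inl (Sum.inr b) : (α ⊕ α) ⊕ (Fin 3 × Fin 3)) ∈ gU (Fin 3 × Fin 3) U b a x a
    rw [mem_gU_2]
    exact ⟨hb, xb.symm, ab.symm⟩
  have hcb : X.Adj c1 b2 := by
    show X.Adj (Sum.inl (Sum.inl x)) (Sum.inl (Sum.inr b))
    rw [hX, gad_12]
    exact Or.inr (Or.inr ⟨xb, xa, Or.inl rfl⟩)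
  -- adjacency of the other points of `Γ`
  have hrest : ∀ u ∈ Γ, u ≠ c1 → u ≠ b2 → (∃ z ∈ U, z ≠ x ∧ z ≠ a ∧ z ≠ b ∧ u = Sum.inl (Sum.inl z)) ∨
      (∃ z ∈ U, z ≠ x ∧ z ≠ a ∧ z ≠ b ∧ u = Sum.inl (Sum.inr z)) ∨ ∃ i, u = Sum.inr i := by
    rintro ((z | z) | i) hu hc hb'
    · rw [hΓ, mem_gU_1] at hu
      exact Or.inl ⟨z, hu.1, fun e => hc (by rw [e]), hu.2.2, hu.2.1, rfl⟩
    · rw [hΓ, mem_gU_2] at hu
      exact Or.inr (Or.inl ⟨z, hu.1, hu.2.1, hu.2.2, fun e => hb' (by rw [e]), rfl⟩)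
    · exact Or.inr (Or.inr ⟨i, rfl⟩)
  have hindΓ : ∀ u ∈ Γ, u ≠ c1 → u ≠ b2 → ∀ v ∈ Γ, v ≠ c1 → v ≠ b2 → ¬ X.Adj u v := by
    intro u hu hu1 hu2 v hv hv1 hv2
    have h11 : ∀ z ∈ U, z ≠ x → z ≠ a → z ≠ b → ∀ z' ∈ U, z' ≠ x → z' ≠ a → z' ≠ b →
        ¬ X.Adj (Sum.inl (Sum.inl z)) (Sum.inl (Sum.inr z')) := by
      intro z _ zx za zb z' _ _ _ zb'
      rw [hX, gad_12]
      rintro (h | h | h)
      · exact zb h.1
      · exact za h.1
      · rcases h.2.2 with h | h
        · exact zx h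
        · exact zb' h.1
    rcases hrest u hu hu1 hu2 with ⟨z, hz, zx, za, zb, rfl⟩ | ⟨z, hz, zx, za, zb, rfl⟩ | ⟨i, rfl⟩ <;>
      rcases hrest v hv hv1 hv2 with ⟨w, hw, wx, wa, wb, rfl⟩ | ⟨w, hw, wx, wa, wb, rfl⟩ | ⟨j, rfl⟩
    · rw [hX, gad_11]
      exact hind z hz zx za zb w hw wx wa wb
    · exact h11 z hz zx za zb w hw wx wa wb
    · rw [hX, gad_1p]
      rintro (h | h)
      · exact zx (by simpa using h.1)
      · simp at h
    · rw [X.adj_comm]
      exact h11 w hw wx wa wb z hz zx za zb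
    · rw [hX, gad_22]
      exact hind z hz zx za zb w hw wx wa wb
    · rw [hX, gad_1p]
      rintro (h | h)
      · simp at h
      · exact zb (by simpa using h.1)
    · rw [hX, gad_p1]
      rintro (h | h)
      · exact wx (by simpa using h.1)
      · simp at h
    · rw [hX, gad_p1]
      rintro (h | h)
      · simp at h
      · exact wb (by simpa using h.1)
    · exact gad_pp _ _
  have hnull : ∀ (u : (α ⊕ α) ⊕ (Fin 3 × Fin 3)) (k : Fin 3), ¬ X.Adj u (Sum.inr (2, k)) := by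
    rintro (u | i) k
    · rw [hX, gad_1p]
      rintro (h | h)
      · simp at h
      · simp at h
    · exact gad_pp _ _
  -- conjugacy
  have hwg : Uniq G 0 X Γ := by
    refine hW {0} 0 rfl _ X Γ {c1, b2} ?_ ?_ ?_ ?_ ?_
    · rintro u (rfl | rfl)
      · exact hc1Γ
      · exact hb2Γ
    · intro u hu hu' v hv hv'
      rw [Set.mem_insert_iff, Set.mem_singleton_iff, not_or] at hu' hv'
      exact hindΓ u hu hu'.1 hu'.2 v hv hv'.1 hv'.2
    · apply hC
      rintro u (rfl | rfl) v (rfl | rfl) huv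
      · exact absurd rfl huv
      · exact hcb
      · exact hcb.symm
      · exact absurd rfl huv
    · intro u _
      by_cases hu : u = Sum.inr (2, 0)
      · refine ⟨Sum.inr (2, 1), mem_gU_p, ?_, hnull u 1⟩
        rw [hu]
        simp
      · exact ⟨Sum.inr (2, 0), mem_gU_p, Ne.symm hu, hnull u 0⟩
    · apply autPres_of_deg
      · intro u hu hu' v hv hv'
        rw [Set.mem_insert_iff, Set.mem_singleton_iff, not_or] at hu' hv'
        exact hindΓ u hu hu'.1 hu'.2 v hv hv'.1 hv'.2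
      · have hT2 : ({c1, b2} : Set ((α ⊕ α) ⊕ (Fin 3 × Fin 3))).ncard ≤ 2 :=
          (Set.ncard_insert_le _ _).trans (by rw [Set.ncard_singleton])
        have h3c : ((fun k : Fin 3 => (Sum.inr (1, k) : (α ⊕ α) ⊕ (Fin 3 × Fin 3))) ''
            Set.univ).ncard = 3 := by
          rw [Set.ncard_image_of_injective, Set.ncard_univ, Nat.card_fin]
          intro k k' hk
          simpa using hk
        intro t ht'
        have hsub : ((fun k : Fin 3 => (Sum.inr (1, k) : (α ⊕ α) ⊕ (Fin 3 × Fin 3))) ''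
            Set.univ) ⊆ {j | j ∈ Γ ∧ j ∉ ({c1, b2} : Set ((α ⊕ α) ⊕ (Fin 3 × Fin 3))) ∧ X.Adj t j} := by
          rintro _ ⟨k, -, rfl⟩
          refine ⟨mem_gU_p, ?_, ?_⟩
          · rintro (h | h)
            · have h' : (Sum.inr (1, k) : (α ⊕ α) ⊕ (Fin 3 × Fin 3)) = Sum.inl (Sum.inl x) := h
              simp at h'
            · have h' : (Sum.inr (1, k) : (α ⊕ α) ⊕ (Fin 3 × Fin 3)) = Sum.inl (Sum.inr b) := h
              simp at h'
          · rcases ht' with rfl | rfl
            · show X.Adj (Sum.inl (Sum.inl x)) (Sum.inr (1, k))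
              rw [hX, gad_1p]
              exact Or.inl ⟨rfl, Or.inr rfl⟩
            · show X.Adj (Sum.inl (Sum.inr b)) (Sum.inr (1, k))
              rw [hX, gad_1p]
              exact Or.inr ⟨rfl, rfl⟩
        have := Set.ncard_le_ncard hsub (Set.toFinite _)
        omega
  have hx1c1 : X.Adj x1 c1 := by
    show X.Adj (Sum.inl (Sum.inl b)) (Sum.inl (Sum.inl x))
    rw [hX, gad_11]
    exact hxb.symm
  have hx1b2 : X.Adj x1 b2 := by
    show X.Adj (Sum.inl (Sum.inl b)) (Sum.inl (Sum.inr b))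
    rw [hX, gad_12]
    exact Or.inl ⟨rfl, hxb⟩
  have hy1b2 : ¬ X.Adj y1 b2 := by
    show ¬ X.Adj (Sum.inl (Sum.inl a)) (Sum.inl (Sum.inr b))
    rw [hX, gad_12]
    rintro (h | h | h)
    · exact ab h.1
    · exact hab h.2
    · exact h.2.1 rfl
  refine t1 (p := b) (q := a) (c := x) (d := a) (C := p1C H x a b f) (E := p1E x b) (D := ∅)
    ab.symm (fun e => hab e.symm) hxa (Set.empty_subset _) (fun z hz => absurd hz (by simp))
    (Or.inl (fun z hz => absurd hz (by simp))) ?_ ⟨b2, hb2Γ, fun e => hy1b2 (e.1 hx1b2)⟩ ?_ ?_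
  · rw [Set.ncard_empty, Set.sdiff_empty]
    exact hwg
  · -- the clique
    refine PS.inW (S := {0}) (T := {x1, c1, b2}) ?_ ?_ rfl
    · apply hC
      rintro u (rfl | rfl | rfl) v (rfl | rfl | rfl) huv
      · exact absurd rfl huv
      · exact hx1c1
      · exact hx1b2
      · exact hx1c1.symm
      · exact absurd rfl huv
      · exact hcb
      · exact hx1b2.symm
      · exact hcb.symm
      · exact absurd rfl huv
    · intro u hu hu' v hv hv'
      rw [Set.mem_insert_iff, Set.mem_insert_iff, Set.mem_singleton_iff, not_or, not_or] at hu' hv'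
      exact hindΓ u (hu.resolve_left hu'.1) hu'.2.1 hu'.2.2 v (hv.resolve_left hv'.1) hv'.2.1
        hv'.2.2
  · -- the path
    refine h _ X (insert y1 Γ) c1 y1 b2 ⟨Set.mem_insert_of_mem _ hc1Γ, Set.mem_insert _ _,
      Set.mem_insert_of_mem _ hb2Γ, ?_, ?_, ?_, ?_, ?_⟩ ?_ hcb hy1b2
    · intro e
      have e' : (Sum.inl (Sum.inl x) : (α ⊕ α) ⊕ (Fin 3 × Fin 3)) = Sum.inl (Sum.inl a) := e
      simp at e'
      exact xa e'
    · intro e
      have e' : (Sum.inl (Sum.inl x) : (α ⊕ α) ⊕ (Fin 3 × Fin 3)) = Sum.inl (Sum.inr b) := e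
      simp at e'
    · intro e
      have e' : (Sum.inl (Sum.inl a) : (α ⊕ α) ⊕ (Fin 3 × Fin 3)) = Sum.inl (Sum.inr b) := e
      simp at e'
    · intro u hu hu1 hu2 hu3 v hv hv1 hv2 hv3
      exact hindΓ u (hu.resolve_left hu2) hu1 hu3 v (hv.resolve_left hv2) hv1 hv3
    · intro u hu hu1 hu2 hu3
      rcases hrest u (hu.resolve_left hu2) hu1 hu3 with ⟨z, hz, zx, za, zb, rfl⟩ |
        ⟨z, hz, zx, za, zb, rfl⟩ | ⟨⟨k, i⟩, rfl⟩
      · have e1 : X.Adj c1 (Sum.inl (Sum.inl z)) = H.Adj x z := rfl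
        have e2 : X.Adj y1 (Sum.inl (Sum.inl z)) = H.Adj a z := rfl
        have e3 : X.Adj b2 (Sum.inl (Sum.inl z)) = f (H.Adj x z) (H.Adj a z) (H.Adj b z) := by
          apply propext
          show X.Adj (Sum.inl (Sum.inr b)) (Sum.inl (Sum.inl z)) ↔ _
          rw [hX, gad_21]
          constructor
          · rintro (h | h | h)
            · exact absurd h.1 zb
            · exact absurd h.1 za
            · rcases h.2.2 with h | h
              · exact absurd h zx
              · exact h.2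
          · intro h
            exact Or.inr (Or.inr ⟨zb, za, Or.inr ⟨rfl, h⟩⟩)
        rw [e1, e2, e3]
        exact h1 _ _ _ (hst z hz zx za zb)
      · have e1 : X.Adj c1 (Sum.inl (Sum.inr z)) = True := by
          apply propext
          show X.Adj (Sum.inl (Sum.inl x)) (Sum.inl (Sum.inr z)) ↔ _
          rw [hX, gad_12, iff_true]
          exact Or.inr (Or.inr ⟨xb, xa, Or.inl rfl⟩)
        have e2 : X.Adj y1 (Sum.inl (Sum.inr z)) = H.Adj a z := by
          apply propext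
          show X.Adj (Sum.inl (Sum.inl a)) (Sum.inl (Sum.inr z)) ↔ _
          rw [hX, gad_12]
          constructor
          · rintro (h | h | h)
            · exact absurd h.1 ab
            · exact h.2
            · exact absurd rfl h.2.1
          · intro h
            exact Or.inr (Or.inl ⟨rfl, h⟩)
        have e3 : X.Adj b2 (Sum.inl (Sum.inr z)) = H.Adj b z := rfl
        rw [e1, e2, e3]
        exact h2 _ _ _ (hst z hz zx za zb)
      · have e1 : X.Adj c1 (Sum.inr (k, i)) = (k = 0 ∨ k = 1) := by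
          apply propext
          show X.Adj (Sum.inl (Sum.inl x)) (Sum.inr (k, i)) ↔ _
          rw [hX, gad_1p]
          simp [p1E]
        have e2 : X.Adj y1 (Sum.inr (k, i)) = False := by
          apply propext
          show X.Adj (Sum.inl (Sum.inl a)) (Sum.inr (k, i)) ↔ _
          rw [hX, gad_1p]
          simp [p1E, xa.symm]
        have e3 : X.Adj b2 (Sum.inr (k, i)) = (k = 1) := by
          apply propext
          show X.Adj (Sum.inl (Sum.inr b)) (Sum.inr (k, i)) ↔ _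
          rw [hX, gad_1p]
          simp [p1E]
        rw [e1, e2, e3]
        fin_cases k
        · simpa using h3
        · simpa using h4
        · simpa using h5
    · show X.Adj (Sum.inl (Sum.inl x)) (Sum.inl (Sum.inl a))
      rw [hX, gad_11]
      exact hxa

end P1

end Un
end SetHom
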